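import Pool.Agent.Y795.COP.Simp

/-!
# The exponential rate of `1 - s_n`
-/

set_option autoImplicit false

open MeasureTheory Set Filter Topology
open scoped unitInterval ENNReal
open Pool.Agent.Results.MP_2d7e0f_pr.SupAttained

namespace Pool.Agent.Y795.COP

lemma fact_le (n : ℕ) (hn : 1 ≤ n) :
    (n.factorial : ℝ) * Real.exp ((n : ℝ) - 1) ≤ (n : ℝ) ^ (n + 1) := by
  induction n, hn using Nat.le_induction with
  | base => simp
  | succ n hn ih =>
    have hn0 : (0 : ℝ) < n := by exact_mod_cast hn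
    have h1 : Real.exp 1 ≤ (((n : ℝ) + 1) / n) ^ (n + 1) := by
      have h2 : 1 ≤ ((n + 1 : ℕ) : ℝ) * Real.log (((n : ℝ) + 1) / n) := by
        have h3 := Real.one_sub_inv_le_log_of_pos (show (0 : ℝ) < ((n : ℝ) + 1) / n by positivity)
        have h4 : 1 - (((n : ℝ) + 1) / n)⁻¹ = 1 / ((n : ℝ) + 1) := by
          field_simp
          ring
        rw [h4] at h3
        have h5 : (1 : ℝ) = ((n + 1 : ℕ) : ℝ) * (1 / ((n : ℝ) + 1)) := by
          push_cast
          field_simp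
        calc (1 : ℝ) = ((n + 1 : ℕ) : ℝ) * (1 / ((n : ℝ) + 1)) := h5
          _ ≤ _ := mul_le_mul_of_nonneg_left h3 (by positivity)
      rw [← Real.log_pow] at h2
      calc Real.exp 1 ≤ Real.exp (Real.log ((((n : ℝ) + 1) / n) ^ (n + 1))) :=
            Real.exp_le_exp.2 h2
        _ = _ := Real.exp_log (by positivity)
    have h6 : (((n + 1).factorial : ℕ) : ℝ) * Real.exp (((n + 1 : ℕ) : ℝ) - 1) =
        ((n : ℝ) + 1) * Real.exp 1 * ((n.factorial : ℝ) * Real.exp ((n : ℝ) - 1)) := by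
      rw [Nat.factorial_succ]
      push_cast
      rw [show (n : ℝ) + 1 - 1 = 1 + (n - 1) by ring, Real.exp_add]
      ring
    rw [h6]
    calc ((n : ℝ) + 1) * Real.exp 1 * ((n.factorial : ℝ) * Real.exp ((n : ℝ) - 1)) ≤
          ((n : ℝ) + 1) * (((n : ℝ) + 1) / n) ^ (n + 1) * (n : ℝ) ^ (n + 1) := by
          gcongr
      _ = (((n + 1 : ℕ) : ℝ)) ^ (n + 1 + 1) := by
          rw [div_pow]
          push_cast
          field_simp
          ring

lemma upper_exp (n : ℕ) (hn : 1 ≤ n) :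
    (n : ℝ) * n.factorial / (n : ℝ) ^ n ≤ Real.exp 1 * (n : ℝ) ^ 2 * Real.exp (-(n : ℝ)) := by
  have hn0 : (0 : ℝ) < n := by exact_mod_cast hn
  have h := fact_le n hn
  have h1 : (n.factorial : ℝ) ≤ (n : ℝ) ^ (n + 1) * Real.exp (1 - (n : ℝ)) := by
    have h2 : Real.exp ((n : ℝ) - 1) * Real.exp (1 - (n : ℝ)) = 1 := by
      rw [← Real.exp_add]; simp
    calc (n.factorial : ℝ) = n.factorial * (Real.exp ((n : ℝ) - 1) * Real.exp (1 - (n : ℝ))) := by
          rw [h2, mul_one]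
      _ = (n.factorial * Real.exp ((n : ℝ) - 1)) * Real.exp (1 - (n : ℝ)) := by ring
      _ ≤ _ := mul_le_mul_of_nonneg_right h (Real.exp_pos _).le
  rw [div_le_iff₀ (by positivity)]
  calc (n : ℝ) * n.factorial ≤ n * ((n : ℝ) ^ (n + 1) * Real.exp (1 - (n : ℝ))) :=
        mul_le_mul_of_nonneg_left h1 hn0.le
    _ = Real.exp 1 * (n : ℝ) ^ 2 * Real.exp (-(n : ℝ)) * (n : ℝ) ^ n := by
        rw [sub_eq_add_neg, Real.exp_add]
        ring

lemma half_exp_le : ∀ᶠ n : ℕ in atTop,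
    Real.exp (-(n : ℝ)) / 2 ≤ Real.exp (-(n : ℝ)) - 1 / n.factorial := by
  have h : Tendsto (fun n : ℕ => Real.exp 1 ^ n / n.factorial) atTop (𝓝 0) :=
    FloorSemiring.tendsto_pow_div_factorial_atTop (Real.exp 1)
  filter_upwards [h.eventually_le_const (show (0 : ℝ) < 1 / 2 by norm_num)] with n hn
  have h1 : Real.exp 1 ^ n = Real.exp (n : ℝ) := by
    rw [← Real.exp_nat_mul, mul_one]
  rw [h1] at hn
  have h2 : 1 / (n.factorial : ℝ) = Real.exp (-(n : ℝ)) * (Real.exp (n : ℝ) / n.factorial) := by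
    rw [← mul_div_assoc, ← Real.exp_add]
    simp
  rw [h2]
  have h3 := mul_le_mul_of_nonneg_left hn (Real.exp_pos (-(n : ℝ))).le
  linarith

theorem tendsto_rate :
    Tendsto (fun n : ℕ => (1 - (s n).toReal) ^ (1 / (n : ℝ))) atTop (𝓝 (Real.exp (-1))) := by
  have hexp : ∀ n : ℕ, 1 ≤ n → Real.exp (-(n : ℝ)) ^ (1 / (n : ℝ)) = Real.exp (-1) := by
    intro n hn
    have hn0 : (n : ℝ) ≠ 0 := by
      have : n ≠ 0 := by omega
      exact_mod_cast this
    rw [← Real.exp_mul]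
    congr 1
    field_simp
  have hlow : Tendsto (fun n : ℕ => Real.exp (-1) * (1 / 2 : ℝ) ^ (1 / (n : ℝ))) atTop
      (𝓝 (Real.exp (-1))) := by
    have h1 : Tendsto (fun n : ℕ => (1 / 2 : ℝ) ^ (1 / (n : ℝ))) atTop (𝓝 ((1 / 2 : ℝ) ^ (0 : ℝ))) :=
      ((Real.continuous_const_rpow (by norm_num : (1 / 2 : ℝ) ≠ 0)).tendsto 0).comp
        tendsto_one_div_atTop_nhds_zero_nat
    rw [Real.rpow_zero] at h1
    simpa using h1.const_mul (Real.exp (-1))
  have hup : Tendsto (fun n : ℕ => Real.exp (-1) *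
      (Real.exp 1 ^ (1 / (n : ℝ)) * ((n : ℝ) ^ (1 / (n : ℝ))) ^ 2)) atTop
      (𝓝 (Real.exp (-1))) := by
    have h1 : Tendsto (fun n : ℕ => Real.exp 1 ^ (1 / (n : ℝ))) atTop
        (𝓝 (Real.exp 1 ^ (0 : ℝ))) :=
      ((Real.continuous_const_rpow (Real.exp_pos 1).ne').tendsto 0).comp
        tendsto_one_div_atTop_nhds_zero_nat
    rw [Real.rpow_zero] at h1
    have h2 : Tendsto (fun n : ℕ => (n : ℝ) ^ (1 / (n : ℝ))) atTop (𝓝 1) :=
      tendsto_rpow_div.comp tendsto_natCast_atTop_atTop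
    simpa using (h1.mul (h2.pow 2)).const_mul (Real.exp (-1))
  refine tendsto_of_tendsto_of_tendsto_of_le_of_le' hlow hup ?_ ?_
  · filter_upwards [half_exp_le, Filter.eventually_ge_atTop 1] with n h1 h2
    have h3 := le_one_sub_s (n := n) h2
    calc Real.exp (-1) * (1 / 2 : ℝ) ^ (1 / (n : ℝ)) =
          (Real.exp (-(n : ℝ)) / 2) ^ (1 / (n : ℝ)) := by
          rw [div_eq_mul_one_div (Real.exp (-(n : ℝ))) 2,
            Real.mul_rpow (Real.exp_pos _).le (by norm_num), hexp n h2]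
      _ ≤ (1 - (s n).toReal) ^ (1 / (n : ℝ)) :=
          Real.rpow_le_rpow (by positivity) (h1.trans h3) (by positivity)
  · filter_upwards [half_exp_le, Filter.eventually_ge_atTop 1] with n h1 h2
    have h3 := le_one_sub_s (n := n) h2
    have h4 := one_sub_s_le n h2
    have h5 := upper_exp n h2
    have h6 : 0 ≤ 1 - (s n).toReal := by
      have : 0 ≤ Real.exp (-(n : ℝ)) / 2 := by positivity
      linarith
    calc (1 - (s n).toReal) ^ (1 / (n : ℝ)) ≤
          (Real.exp 1 * (n : ℝ) ^ 2 * Real.exp (-(n : ℝ))) ^ (1 / (n : ℝ)) :=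
          Real.rpow_le_rpow h6 (h4.trans h5) (by positivity)
      _ = Real.exp (-1) * (Real.exp 1 ^ (1 / (n : ℝ)) * ((n : ℝ) ^ (1 / (n : ℝ))) ^ 2) := by
          rw [Real.mul_rpow (by positivity) (Real.exp_pos _).le,
            Real.mul_rpow (Real.exp_pos _).le (by positivity), hexp n h2]
          rw [← Real.rpow_natCast ((n : ℝ)) 2, ← Real.rpow_natCast ((n : ℝ) ^ (1 / (n : ℝ))) 2,
            ← Real.rpow_mul (by positivity), ← Real.rpow_mul (by positivity),
            mul_comm (1 / (n : ℝ)) _]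
          ring

end Pool.Agent.Y795.COP
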