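import Pool.Agent.Y795.COP.Mix

/-!
# Every copula is positive on a set of volume at least `exp (-n)`
-/

set_option autoImplicit false

open MeasureTheory Set Filter Topology
open scoped unitInterval ENNReal
open Pool.Agent.Results.MP_2d7e0f_pr.SupAttained

namespace Pool.Agent.Y795.COP

variable {n : ℕ}

/-- The mixed difference of a function on the grid. -/
noncomputable def dif (F : (Fin n → ℕ) → ℝ) (k : Fin n → ℕ) : ℝ :=
  ∑ S : Finset (Fin n), (-1 : ℝ) ^ (n - S.card) * F (fun i => if i ∈ S then k i + 1 else k i)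

lemma dif_prod (h : Fin n → ℕ → ℝ) (k : Fin n → ℕ) :
    dif (fun x => ∏ i, h i (x i)) k = ∏ i, (h i (k i + 1) - h i (k i)) := by
  have e := Finset.prod_add (fun i => h i (k i + 1)) (fun i => -h i (k i))
    (Finset.univ : Finset (Fin n))
  simp only [← sub_eq_add_neg] at e
  rw [e, dif, Finset.powerset_univ]
  refine Finset.sum_congr rfl fun S _ => ?_
  have h1 : ∏ i, h i (if i ∈ S then k i + 1 else k i) =
      (∏ i ∈ S, h i (k i + 1)) * ∏ i ∈ Finset.univ \ S, h i (k i) := by
    have : ∀ i, h i (if i ∈ S then k i + 1 else k i) =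
        if i ∈ S then h i (k i + 1) else h i (k i) := by
      intro i
      by_cases hi : i ∈ S <;> simp [hi]
    simp_rw [this]
    rw [Finset.prod_ite]
    congr 1
    · exact Finset.prod_congr (by ext; simp) fun _ _ => rfl
    · exact Finset.prod_congr (by ext; simp) fun _ _ => rfl
  rw [h1, Finset.prod_neg, Finset.card_sdiff_of_subset (Finset.subset_univ S)]
  simp only [Finset.card_univ, Fintype.card_fin]
  ring

lemma prod_delta (x y : Fin n → ℕ) :
    ∏ i, (if x i = y i then (1 : ℝ) else 0) = if x = y then 1 else 0 := by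
  rw [Finset.prod_ite_zero]
  simp [funext_iff]

/-- The mixed differences sum up to the function. -/
lemma sum_dif (F : (Fin n → ℕ) → ℝ) (h0 : ∀ x, (∃ i, x i = 0) → F x = 0) (a : Fin n → ℕ) :
    ∑ k ∈ Fintype.piFinset (fun i => Finset.range (a i)), dif F k = F a := by
  classical
  set A := Fintype.piFinset (fun i => Finset.range (a i + 1)) with hA
  have hF : ∀ x ∈ A, F x = ∑ y ∈ A, F y * ∏ i, (if x i = y i then (1 : ℝ) else 0) := by
    intro x hx
    simp_rw [prod_delta]
    simp [hx]
  have h1 : ∀ k ∈ Fintype.piFinset (fun i => Finset.range (a i)), dif F k =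
      ∑ y ∈ A, F y * ∏ i, ((if k i + 1 = y i then (1 : ℝ) else 0) -
        (if k i = y i then (1 : ℝ) else 0)) := by
    intro k hk
    rw [Fintype.mem_piFinset] at hk
    have e : ∀ y : Fin n → ℕ, ∏ i, ((if k i + 1 = y i then (1 : ℝ) else 0) -
        (if k i = y i then (1 : ℝ) else 0)) =
        dif (fun x => ∏ i, (if x i = y i then (1 : ℝ) else 0)) k := by
      intro y
      rw [dif_prod (fun i t => if t = y i then (1 : ℝ) else 0)]
    simp_rw [e]
    unfold dif
    simp_rw [Finset.mul_sum]
    rw [Finset.sum_comm]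
    refine Finset.sum_congr rfl fun S _ => ?_
    rw [hF (fun i => if i ∈ S then k i + 1 else k i) (by
      rw [hA, Fintype.mem_piFinset]
      intro i
      have := Finset.mem_range.1 (hk i)
      rw [Finset.mem_range]
      by_cases hi : i ∈ S <;> simp [hi] <;> omega), Finset.mul_sum]
    refine Finset.sum_congr rfl fun y _ => ?_
    ring
  rw [Finset.sum_congr rfl h1, Finset.sum_comm]
  have h2 : ∀ y ∈ A, ∑ k ∈ Fintype.piFinset (fun i => Finset.range (a i)),
      F y * ∏ i, ((if k i + 1 = y i then (1 : ℝ) else 0) - (if k i = y i then (1 : ℝ) else 0)) =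
      F y * if a = y then 1 else 0 := by
    intro y _
    rw [← Finset.mul_sum]
    by_cases hy : ∃ i, y i = 0
    · rw [h0 y hy]; simp
    · push Not at hy
      congr 1
      rw [← Finset.prod_univ_sum (fun i => Finset.range (a i))
        (fun i t => (if t + 1 = y i then (1 : ℝ) else 0) - (if t = y i then (1 : ℝ) else 0))]
      have : ∀ i, ∑ t ∈ Finset.range (a i),
          ((if t + 1 = y i then (1 : ℝ) else 0) - (if t = y i then (1 : ℝ) else 0)) =
          if a i = y i then 1 else 0 := by
        intro i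
        rw [Finset.sum_range_sub (fun t => if t = y i then (1 : ℝ) else 0)]
        have : ¬ (0 = y i) := fun h => hy i h.symm
        simp [this]
      simp_rw [this]
      exact prod_delta a y
  rw [Finset.sum_congr rfl h2]
  have haA : a ∈ A := by
    rw [hA, Fintype.mem_piFinset]
    intro i
    simp
  simp [haA]

/-- Monotonicity of copulas. -/
lemma mono_copula {C : (Fin n → I) → I} (hC : IsCopula C) {x y : Fin n → I}
    (hxy : ∀ k, x k ≤ y k) : (C x : ℝ) ≤ C y := by
  have key : ∀ (t : Finset (Fin n)) (z : Fin n → I), (∀ k, z k = if k ∈ t then y k else x k) →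
      (C x : ℝ) ≤ C z := by
    intro t
    induction t using Finset.induction_on with
    | empty =>
      intro z hz
      have : z = x := by funext k; simpa using hz k
      rw [this]
    | insert j t hjt ih =>
      intro z hz
      have h1 := ih (Function.update z j (x j)) (by
        intro k
        by_cases hk : k = j
        · subst hk; simp [hjt]
        · simp only [ne_eq, hk, not_false_eq_true, Function.update_of_ne]
          rw [hz k]
          simp [hk])
      have h2 := mono_coord hC (Function.update z j (x j)) j (z j) (by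
        rw [Function.update_self, hz j]
        simpa using hxy j)
      have h3 : Function.update (Function.update z j (x j)) j (z j) = z := by simp
      rw [h3] at h2
      exact h1.trans h2
  exact key Finset.univ y (by intro k; simp)

/-- The grid points. -/
noncomputable def pt (m : ℕ) (x : Fin n → ℕ) : Fin n → I :=
  fun i => Set.projIcc (0 : ℝ) 1 zero_le_one ((x i : ℝ) / m)

lemma pt_coe (m : ℕ) (x : Fin n → ℕ) (i : Fin n) (h : x i ≤ m) :
    (pt m x i : ℝ) = (x i : ℝ) / m := by
  unfold pt
  rw [Set.projIcc_of_mem]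
  refine ⟨by positivity, ?_⟩
  rcases Nat.eq_zero_or_pos m with hm | hm
  · subst hm; simp
  · rw [div_le_one (by exact_mod_cast hm)]
    exact_mod_cast h

lemma dif_eq (C : (Fin n → I) → I) (m : ℕ) (k : Fin n → ℕ) :
    dif (fun x => (C (pt m x) : ℝ)) k = boxVolume C (pt m k) (pt m (fun i => k i + 1)) := by
  unfold dif boxVolume
  refine Finset.sum_congr rfl fun S _ => ?_
  have e : pt m (fun i => if i ∈ S then k i + 1 else k i) =
      fun i => if i ∈ S then pt m (fun i => k i + 1) i else pt m k i := by
    funext i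
    unfold pt
    by_cases hi : i ∈ S <;> simp [hi]
  simp only [e]

lemma pt_mono (m : ℕ) {x y : Fin n → ℕ} (i : Fin n) (h : x i ≤ y i) : pt m x i ≤ pt m y i := by
  unfold pt
  apply Set.monotone_projIcc
  have : (x i : ℝ) ≤ y i := by exact_mod_cast h
  exact div_le_div_of_nonneg_right this (by positivity)

lemma dif_nonneg {C : (Fin n → I) → I} (hC : IsCopula C) (m : ℕ) (k : Fin n → ℕ) :
    0 ≤ dif (fun x => (C (pt m x) : ℝ)) k := by
  rw [dif_eq]
  exact hC.nonneg _ _ fun i => pt_mono m i (Nat.le_succ _)

lemma grounded_pt {C : (Fin n → I) → I} (hC : IsCopula C) (m : ℕ) (x : Fin n → ℕ)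
    (hx : ∃ i, x i = 0) : (C (pt m x) : ℝ) = 0 := by
  obtain ⟨i, hi⟩ := hx
  rw [hC.grounded _ ⟨i, ?_⟩]
  · simp
  · unfold pt
    rw [hi]
    simp

lemma box_volume (m : ℕ) (hm : 0 < m) (k : Fin n → ℕ) (hk : ∀ i, k i + 1 ≤ m) :
    (volume : Measure (Fin n → I)) (Set.univ.pi fun i => Set.Ici (pt m (fun i => k i + 1) i)) =
      ENNReal.ofReal (∏ i, (1 - ((k i : ℝ) + 1) / m)) := by
  rw [volume_pi, Measure.pi_pi, ENNReal.ofReal_prod_of_nonneg]
  · refine Finset.prod_congr rfl fun i _ => ?_
    rw [unitInterval.volume_Ici, pt_coe m _ i (hk i)]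
    push_cast
    rfl
  · intro i _
    have h1 : ((k i : ℝ) + 1) ≤ m := by exact_mod_cast hk i
    rw [sub_nonneg, div_le_one (by exact_mod_cast hm)]
    exact h1

lemma log_sum (m : ℕ) (hm : 1 ≤ m) :
    -(m : ℝ) ≤ ∑ j ∈ Finset.range (m - 1), Real.log (1 - ((j : ℝ) + 1) / m) := by
  have : NeZero m := ⟨by omega⟩
  have hm0 : (0 : ℝ) < m := by exact_mod_cast hm
  have h := prod_cells m
  rw [Fin.prod_univ_eq_prod_range (fun j => (1 - (j : ℝ) / m)) m] at h
  obtain ⟨l, rfl⟩ : ∃ l, m = l + 1 := ⟨m - 1, by omega⟩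
  rw [Finset.prod_range_succ'] at h
  simp only [Nat.cast_zero, zero_div, sub_zero, mul_one, Nat.cast_add, Nat.cast_one] at h
  rw [Nat.add_sub_cancel, ← Real.log_prod]
  · push_cast
    rw [h]
    have h1 := Real.pow_div_factorial_le_exp ((l : ℝ) + 1) (by positivity) (l + 1)
    have hf : (0 : ℝ) < ((l + 1).factorial : ℝ) := by exact_mod_cast Nat.factorial_pos _
    have h2 : Real.exp (-((l : ℝ) + 1)) ≤ ((l + 1).factorial : ℝ) / ((l : ℝ) + 1) ^ (l + 1) := by
      rw [Real.exp_neg, ← inv_div]
      exact inv_anti₀ (by positivity) h1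
    calc -((l : ℝ) + 1) = Real.log (Real.exp (-((l : ℝ) + 1))) := (Real.log_exp _).symm
      _ ≤ _ := Real.log_le_log (Real.exp_pos _) h2
  · intro j hj
    have : j < l := Finset.mem_range.1 hj
    have h3 : (j : ℝ) + 1 < (l : ℝ) + 1 := by
      have : (j : ℝ) < l := by exact_mod_cast this
      linarith
    push_cast
    have h4 : ((j : ℝ) + 1) / ((l : ℝ) + 1) < 1 := by
      rw [div_lt_one (by positivity)]
      exact h3
    linarith

lemma fiber_le {C : (Fin n → I) → I} (hC : IsCopula C) (m : ℕ) (i : Fin n) (j : ℕ)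
    (hj : j + 1 ≤ m) (G : Finset (Fin n → ℕ)) (hG : ∀ k ∈ G, k i = j ∧ ∀ l, k l < m) :
    ∑ k ∈ G, dif (fun x => (C (pt m x) : ℝ)) k ≤ 1 / m := by
  classical
  set F : (Fin n → ℕ) → ℝ := fun x => (C (pt m x) : ℝ) with hF
  set a : Fin n → ℕ := Function.update (fun _ => m) i (j + 1) with ha
  set b : Fin n → ℕ := Function.update (fun _ => m) i j with hb
  have hm : (0 : ℝ) < m := by
    have : 0 < m := by omega
    exact_mod_cast this
  have sa := sum_dif F (fun x hx => grounded_pt hC m x hx) a
  have sb := sum_dif F (fun x hx => grounded_pt hC m x hx) b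
  have one : ∀ x : Fin n → ℕ, ∀ l, x l = m → pt m x l = 1 := by
    intro x l hl
    apply Subtype.ext
    rw [pt_coe m x l hl.le, hl]
    simp [hm.ne']
  have Fa : F a = ((j : ℝ) + 1) / m := by
    rw [hF]
    simp only
    rw [hC.margin (pt m a) i (fun l hl => one a l (by rw [ha]; simp [hl])),
      pt_coe m a i (by rw [ha]; simpa using hj)]
    rw [ha]
    simp
  have Fb : F b = (j : ℝ) / m := by
    rw [hF]
    simp only
    rw [hC.margin (pt m b) i (fun l hl => one b l (by rw [hb]; simp [hl])),
      pt_coe m b i (by rw [hb]; simp; omega)]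
    rw [hb]
    simp
  have hsub : Fintype.piFinset (fun l => Finset.range (b l)) ⊆
      Fintype.piFinset (fun l => Finset.range (a l)) := by
    apply Fintype.piFinset_subset
    intro l
    apply Finset.range_subset_range.2
    rw [ha, hb]
    by_cases hl : l = i
    · subst hl; simp
    · simp [hl]
  have h := Finset.sum_sdiff hsub (f := dif F)
  calc ∑ k ∈ G, dif F k ≤ ∑ k ∈ Fintype.piFinset (fun l => Finset.range (a l)) \
        Fintype.piFinset (fun l => Finset.range (b l)), dif F k := by
        refine Finset.sum_le_sum_of_subset_of_nonneg ?_ fun k _ _ => dif_nonneg hC m k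
        intro k hk
        obtain ⟨h1, h2⟩ := hG k hk
        rw [Finset.mem_sdiff, Fintype.mem_piFinset, Fintype.mem_piFinset]
        constructor
        · intro l
          rw [Finset.mem_range, ha]
          by_cases hl : l = i
          · subst hl; simp [h1]
          · simp [hl, h2 l]
        · intro h3
          have := Finset.mem_range.1 (h3 i)
          rw [hb] at this
          simp [h1] at this
    _ = F a - F b := by rw [sa, sb] at h; linarith
    _ = 1 / m := by rw [Fa, Fb]; ring

/-- If a cell not touching the upper faces has positive weight, then the volume of the set where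
the copula is positive is bounded below by the volume of the box above the cell. -/
lemma cell_le {C : (Fin n → I) → I} (hC : IsCopula C) (m : ℕ) (hm : 1 ≤ m) (k : Fin n → ℕ)
    (hk : ∀ i, k i < m - 1) (hw : 0 < dif (fun x => (C (pt m x) : ℝ)) k) :
    0 < ∏ i, (1 - ((k i : ℝ) + 1) / m) ∧ ∏ i, (1 - ((k i : ℝ) + 1) / m) ≤
      ((volume : Measure (Fin n → I)) {x | 0 < (C x : ℝ)}).toReal := by
  have hm0 : (0 : ℝ) < m := by exact_mod_cast hm
  have hpos : ∀ i, 0 < 1 - ((k i : ℝ) + 1) / m := by
    intro i
    have h1 : ((k i : ℝ) + 1) < m := by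
      have := hk i
      have : k i + 1 < m := by omega
      exact_mod_cast this
    rw [sub_pos, div_lt_one hm0]
    exact h1
  refine ⟨Finset.prod_pos fun i _ => hpos i, ?_⟩
  set F : (Fin n → ℕ) → ℝ := fun x => (C (pt m x) : ℝ) with hF
  have hC1 : 0 < F (fun i => k i + 1) := by
    have h1 := sum_dif F (fun x hx => grounded_pt hC m x hx) (fun i => k i + 1)
    rw [← h1]
    refine hw.trans_le (Finset.single_le_sum (f := dif F) (fun k' _ => dif_nonneg hC m k') ?_)
    rw [Fintype.mem_piFinset]
    intro i
    simp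
  have hsub : (Set.univ.pi fun i => Set.Ici (pt m (fun i => k i + 1) i)) ⊆
      {x : Fin n → I | 0 < (C x : ℝ)} := by
    intro x hx
    exact lt_of_lt_of_le hC1 (mono_copula hC fun i => hx i (Set.mem_univ i))
  have h2 := measure_mono (μ := (volume : Measure (Fin n → I))) hsub
  rw [box_volume m (by omega) k (fun i => by have := hk i; omega)] at h2
  exact (ENNReal.ofReal_le_iff_le_toReal (measure_ne_top _ _)).1 h2

/-- Every copula is positive on a set of volume at least `exp (-n)`. -/
theorem exp_le_volume_pos {C : (Fin n → I) → I} (hn : 1 ≤ n) (hC : IsCopula C) :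
    Real.exp (-(n : ℝ)) ≤ ((volume : Measure (Fin n → I)) {x | 0 < (C x : ℝ)}).toReal := by
  classical
  set V := ((volume : Measure (Fin n → I)) {x | 0 < (C x : ℝ)}).toReal with hV
  have hV1 : V ≤ 1 := by
    have : (volume : Measure (Fin n → I)) {x | 0 < (C x : ℝ)} ≤ 1 := prob_le_one
    have h := ENNReal.toReal_mono ENNReal.one_ne_top this
    rw [ENNReal.toReal_one] at h
    exact h
  have hsum : ∀ m : ℕ, n < m → 1 - (n : ℝ) / m ≤
      ∑ k ∈ Fintype.piFinset (fun _ : Fin n => Finset.range (m - 1)),
        dif (fun x => (C (pt m x) : ℝ)) k := by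
    intro m hm
    have hm0 : (0 : ℝ) < m := by
      have : 0 < m := by omega
      exact_mod_cast this
    rw [sum_dif (fun x => (C (pt m x) : ℝ)) (fun x hx => grounded_pt hC m x hx) (fun _ => m - 1)]
    refine le_trans ?_ (W_le hn hC _)
    unfold W
    refine le_trans ?_ (le_max_left _ _)
    have : ∀ i, (pt m (fun _ : Fin n => m - 1) i : ℝ) = 1 - 1 / m := by
      intro i
      rw [pt_coe m _ i (by omega), Nat.cast_sub (by omega)]
      field_simp
      simp
    simp_rw [this]
    rw [Finset.sum_const, Finset.card_univ, Fintype.card_fin, nsmul_eq_mul]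
    have : (n : ℝ) * (1 - 1 / m) - n + 1 = 1 - n / m := by ring
    rw [this]
  have hVpos : 0 < V := by
    have h1 := hsum (n + 1) (by omega)
    have h2 : 0 < 1 - (n : ℝ) / ((n + 1 : ℕ) : ℝ) := by
      rw [sub_pos, div_lt_one (by positivity)]
      push_cast
      linarith
    obtain ⟨k, hk, hk0⟩ := Finset.exists_ne_zero_of_sum_ne_zero (h2.trans_le h1).ne'
    rw [Fintype.mem_piFinset] at hk
    obtain ⟨h3, h4⟩ := cell_le hC (n + 1) (by omega) k (fun i => Finset.mem_range.1 (hk i))
      (lt_of_le_of_ne (dif_nonneg hC _ _) hk0.symm)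
    exact h3.trans_le h4
  have hlog : Real.log V ≤ 0 := Real.log_nonpos hVpos.le hV1
  have key : ∀ m : ℕ, n < m → -(n : ℝ) ≤ (1 - (n : ℝ) / m) * Real.log V := by
    intro m hm
    have hm0 : (0 : ℝ) < m := by
      have : 0 < m := by omega
      exact_mod_cast this
    set F : (Fin n → ℕ) → ℝ := fun x => (C (pt m x) : ℝ) with hF
    set G := Fintype.piFinset (fun _ : Fin n => Finset.range (m - 1)) with hG
    set f : ℕ → ℝ := fun j => Real.log (1 - ((j : ℝ) + 1) / m) with hf
    have hf0 : ∀ j, j < m - 1 → f j ≤ 0 := by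
      intro j hj
      have h1 : ((j : ℝ) + 1) < m := by
        have : j + 1 < m := by omega
        exact_mod_cast this
      have h2 : ((j : ℝ) + 1) / m < 1 := by rw [div_lt_one hm0]; exact h1
      have h3 : 0 < ((j : ℝ) + 1) / m := by positivity
      exact Real.log_nonpos (by linarith) (by linarith)
    have h1 : ∑ k ∈ G, dif F k * ∑ i, f (k i) ≤ ∑ k ∈ G, dif F k * Real.log V := by
      refine Finset.sum_le_sum fun k hk => ?_
      rw [hG, Fintype.mem_piFinset] at hk
      rcases (dif_nonneg hC m k).eq_or_lt with h0 | h0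
      · rw [← h0]; simp
      · refine mul_le_mul_of_nonneg_left ?_ h0.le
        obtain ⟨h3, h4⟩ := cell_le hC m (by omega) k (fun i => Finset.mem_range.1 (hk i)) h0
        have h5 := Real.log_le_log h3 h4
        rw [Real.log_prod] at h5
        · exact h5
        · intro i _
          have : 0 < ∏ i, (1 - ((k i : ℝ) + 1) / m) := h3
          intro h0'
          rw [Finset.prod_eq_zero (Finset.mem_univ i) h0'] at this
          exact lt_irrefl _ this
    have h2 : ∀ i : Fin n, -1 ≤ ∑ k ∈ G, dif F k * f (k i) := by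
      intro i
      rw [← Finset.sum_fiberwise_of_maps_to (s := G) (t := Finset.range (m - 1))
        (g := fun k => k i) (fun k hk => by
          rw [hG, Fintype.mem_piFinset] at hk
          exact hk i)]
      have h3 : ∀ j ∈ Finset.range (m - 1), f j * (1 / m) ≤
          ∑ k ∈ G with k i = j, dif F k * f (k i) := by
        intro j hj
        have hj' := Finset.mem_range.1 hj
        have h4 : ∑ k ∈ G with k i = j, dif F k * f (k i) =
            f j * ∑ k ∈ G with k i = j, dif F k := by
          rw [Finset.mul_sum]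
          refine Finset.sum_congr rfl fun k hk => ?_
          rw [(Finset.mem_filter.1 hk).2]
          ring
        rw [h4]
        refine mul_le_mul_of_nonpos_left ?_ (hf0 j hj')
        refine fiber_le hC m i j (by omega) _ ?_
        intro k hk
        rw [Finset.mem_filter, hG, Fintype.mem_piFinset] at hk
        refine ⟨hk.2, fun l => ?_⟩
        have := Finset.mem_range.1 (hk.1 l)
        omega
      refine le_trans ?_ (Finset.sum_le_sum h3)
      rw [← Finset.sum_mul]
      have h5 := log_sum m (by omega)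
      have h6 : -(m : ℝ) * (1 / m) ≤ (∑ j ∈ Finset.range (m - 1), f j) * (1 / m) :=
        mul_le_mul_of_nonneg_right h5 (by positivity)
      have h7 : -(m : ℝ) * (1 / m) = -1 := by field_simp
      rw [h7] at h6
      exact h6
    have h3 : -(n : ℝ) ≤ ∑ k ∈ G, dif F k * ∑ i, f (k i) := by
      simp_rw [Finset.mul_sum]
      rw [Finset.sum_comm]
      calc -(n : ℝ) = ∑ _i : Fin n, (-1 : ℝ) := by simp
        _ ≤ _ := Finset.sum_le_sum fun i _ => h2 i
    rw [← Finset.sum_mul] at h1
    calc -(n : ℝ) ≤ _ := h3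
      _ ≤ (∑ k ∈ G, dif F k) * Real.log V := h1
      _ ≤ (1 - (n : ℝ) / m) * Real.log V := mul_le_mul_of_nonpos_right (hsum m hm) hlog
  have hlim : Tendsto (fun m : ℕ => (1 - (n : ℝ) / m) * Real.log V) atTop
      (𝓝 ((1 - 0) * Real.log V)) :=
    ((tendsto_const_nhds).sub (tendsto_const_div_atTop_nhds_zero_nat (n : ℝ))).mul_const _
  rw [sub_zero, one_mul] at hlim
  have h8 : -(n : ℝ) ≤ Real.log V :=
    ge_of_tendsto hlim (Filter.eventually_atTop.2 ⟨n + 1, fun m hm => key m (by omega)⟩)
  calc Real.exp (-(n : ℝ)) ≤ Real.exp (Real.log V) := Real.exp_le_exp.2 h8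
    _ = V := Real.exp_log hVpos

end Pool.Agent.Y795.COP
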