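import Pool.Agent.Results.MP_2d7e0f_pr.SupAttained

/-!
# Mixtures of product functions as copulas; the cyclic shift copula
-/

set_option autoImplicit false

open MeasureTheory Set Filter Topology
open scoped unitInterval ENNReal
open Pool.Agent.Results.MP_2d7e0f_pr.SupAttained

namespace Pool.Agent.Y795.COP

variable {n : ℕ}

/-- The mixture, with uniform weights, of the functions `x ↦ ∏ k, g ω k (x k)`. -/
noncomputable def mix {Ω : Type} [Fintype Ω] (g : Ω → Fin n → I → I) (x : Fin n → I) : I :=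
  Set.projIcc (0 : ℝ) 1 zero_le_one
    ((∑ ω, ((prodCopula (fun k => g ω k (x k)) : I) : ℝ)) / Fintype.card Ω)

lemma mix_coe {Ω : Type} [Fintype Ω] [Nonempty Ω] (g : Ω → Fin n → I → I) (x : Fin n → I) :
    (mix g x : ℝ) = (∑ ω, ((prodCopula (fun k => g ω k (x k)) : I) : ℝ)) / Fintype.card Ω := by
  have hc : (0 : ℝ) < Fintype.card Ω := by exact_mod_cast Fintype.card_pos
  have h0 : 0 ≤ (∑ ω, ((prodCopula (fun k => g ω k (x k)) : I) : ℝ)) / Fintype.card Ω :=
    div_nonneg (Finset.sum_nonneg fun ω _ => (prodCopula (fun k => g ω k (x k))).2.1) hc.le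
  have h1 : (∑ ω, ((prodCopula (fun k => g ω k (x k)) : I) : ℝ)) / Fintype.card Ω ≤ 1 := by
    rw [div_le_one hc]
    calc (∑ ω, ((prodCopula (fun k => g ω k (x k)) : I) : ℝ)) ≤ ∑ _ω : Ω, (1 : ℝ) :=
          Finset.sum_le_sum fun ω _ => (prodCopula (fun k => g ω k (x k))).2.2
      _ = Fintype.card Ω := by simp
  unfold mix
  rw [Set.projIcc_of_mem zero_le_one ⟨h0, h1⟩]

lemma boxVolume_mix {Ω : Type} [Fintype Ω] [Nonempty Ω] (g : Ω → Fin n → I → I)
    (u v : Fin n → I) :
    boxVolume (mix g) u v =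
      (∑ ω, ∏ k, ((g ω k (v k) : ℝ) - g ω k (u k))) / Fintype.card Ω := by
  have h : ∀ ω, ∏ k, ((g ω k (v k) : ℝ) - g ω k (u k)) =
      ∑ S : Finset (Fin n), (-1 : ℝ) ^ (n - S.card) *
        ((prodCopula (fun k => g ω k (if k ∈ S then v k else u k)) : I) : ℝ) := by
    intro ω
    rw [← boxVolume_prod (fun k => g ω k (u k)) (fun k => g ω k (v k)), boxVolume]
    refine Finset.sum_congr rfl fun S _ => ?_
    congr 3
    funext k
    by_cases hk : k ∈ S <;> simp [hk]
  simp_rw [h]
  rw [Finset.sum_comm, Finset.sum_div, boxVolume]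
  refine Finset.sum_congr rfl fun S _ => ?_
  rw [mix_coe, ← Finset.mul_sum]
  ring

lemma isCopula_mix {Ω : Type} [Fintype Ω] [Nonempty Ω] (g : Ω → Fin n → I → I)
    (h0 : ∀ ω k, g ω k 0 = 0) (h1 : ∀ ω k, g ω k 1 = 1)
    (hm : ∀ ω k, Monotone (g ω k))
    (ha : ∀ k x, ∑ ω, (g ω k x : ℝ) = Fintype.card Ω * (x : ℝ)) : IsCopula (mix g) where
  grounded := by
    rintro x ⟨k, hk⟩
    apply Subtype.ext
    rw [mix_coe]
    rw [Finset.sum_eq_zero]
    · simp
    · intro ω _
      rw [isCopula_prod.grounded _ ⟨k, by simp [hk, h0]⟩]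
      simp
  margin := by
    intro x k hx
    apply Subtype.ext
    have hc : (0 : ℝ) < Fintype.card Ω := by exact_mod_cast Fintype.card_pos
    rw [mix_coe]
    have : ∀ ω, ((prodCopula (fun k => g ω k (x k)) : I) : ℝ) = g ω k (x k) := by
      intro ω
      rw [isCopula_prod.margin _ k (fun j hj => by simp [hx j hj, h1])]
    simp_rw [this]
    rw [ha k (x k)]
    field_simp
  nonneg := by
    intro u v huv
    rw [boxVolume_mix]
    refine div_nonneg (Finset.sum_nonneg fun ω _ => Finset.prod_nonneg fun k _ => ?_) (by positivity)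
    exact sub_nonneg.2 (hm ω k (huv k))

/-- `W ≤ C` for every copula. -/
lemma W_le {C : (Fin n → I) → I} (hn : 1 ≤ n) (hC : IsCopula C) (x : Fin n → I) :
    W x ≤ (C x : ℝ) := by
  unfold W
  refine max_le ?_ (C x).2.1
  have h := abs_sub_le_sum hC x (fun _ => 1)
  have h1 : C (fun _ => 1) = 1 := hC.margin (fun _ => 1) ⟨0, hn⟩ (fun _ _ => rfl)
  rw [h1] at h
  have h2 : ∑ k, |(x k : ℝ) - (((1 : I)) : ℝ)| = (n : ℝ) - ∑ k, (x k : ℝ) := by
    have : ∀ k, |(x k : ℝ) - (((1 : I)) : ℝ)| = 1 - (x k : ℝ) := by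
      intro k
      rw [abs_sub_comm, abs_of_nonneg (by simpa using (x k).2.2)]
      simp
    simp_rw [this]
    simp
  rw [h2] at h
  have h3 := (abs_le.1 h).1
  simp only [Set.Icc.coe_one] at h3
  linarith

/-- The clamp of `n x - j` to the unit interval. -/
noncomputable def cl (n j : ℕ) (x : I) : I :=
  Set.projIcc (0 : ℝ) 1 zero_le_one ((n : ℝ) * x - j)

lemma cl_coe (n j : ℕ) (x : I) : (cl n j x : ℝ) = max 0 (min 1 ((n : ℝ) * x - j)) := by
  unfold cl
  rw [Set.coe_projIcc]

lemma sum_cl (n : ℕ) (x : I) (m : ℕ) :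
    ∑ j ∈ Finset.range m, (cl n j x : ℝ) = min ((n : ℝ) * x) m := by
  have hx : 0 ≤ (n : ℝ) * x := mul_nonneg (by positivity) x.2.1
  induction m with
  | zero => simp [hx]
  | succ m ih =>
    rw [Finset.sum_range_succ, ih, cl_coe]
    push_cast
    set y := (n : ℝ) * x
    rcases le_total y m with h | h
    · rw [min_eq_left h, min_eq_right (by linarith : y - m ≤ 1), max_eq_left (by linarith),
        min_eq_left (by linarith : y ≤ (m : ℝ) + 1)]
      ring
    · rw [min_eq_right h]
      rcases le_total y (m + 1) with h' | h'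
      · rw [min_eq_left h', min_eq_right (by linarith : y - m ≤ 1), max_eq_right (by linarith)]
        ring
      · rw [min_eq_right h', min_eq_left (by linarith : 1 ≤ y - m), max_eq_right zero_le_one]

/-- The components of the cyclic shift copula. -/
noncomputable def gs (n : ℕ) [NeZero n] (s k : Fin n) (x : I) : I := cl n ((k + s : Fin n) : ℕ) x

/-- The cyclic shift copula: the cells of the `n` coordinates are always a cyclic shift of
`0, 1, ..., n - 1`. -/
noncomputable def cyc (n : ℕ) [NeZero n] : (Fin n → I) → I := mix (gs n)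

lemma isCopula_cyc (n : ℕ) [NeZero n] : IsCopula (cyc n) := by
  have hn : 0 < n := Nat.pos_of_ne_zero (NeZero.ne n)
  refine isCopula_mix (gs n) ?_ ?_ ?_ ?_
  · intro s k
    apply Subtype.ext
    unfold gs
    rw [cl_coe]
    simp
  · intro s k
    apply Subtype.ext
    unfold gs
    rw [cl_coe]
    have h : (((k + s : Fin n) : ℕ) : ℝ) + 1 ≤ n := by exact_mod_cast (k + s : Fin n).2
    simp only [Set.Icc.coe_one, mul_one]
    rw [min_eq_left (by linarith), max_eq_right zero_le_one]
  · intro s k x y hxy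
    apply Subtype.coe_le_coe.1
    unfold gs
    rw [cl_coe, cl_coe]
    have h : (x : ℝ) ≤ y := hxy
    have h2 : (n : ℝ) * x ≤ n * y := mul_le_mul_of_nonneg_left h (by positivity)
    exact max_le_max le_rfl (min_le_min le_rfl (by linarith))
  · intro k x
    have e : ∑ s : Fin n, (gs n s k x : ℝ) = ∑ j : Fin n, (cl n (j : ℕ) x : ℝ) := by
      unfold gs
      exact Equiv.sum_comp (Equiv.addLeft k) (fun j : Fin n => (cl n (j : ℕ) x : ℝ))
    rw [e, Fin.sum_univ_eq_sum_range (fun j => (cl n j x : ℝ)) n, sum_cl]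
    rw [Fintype.card_fin, min_eq_left]
    have : (x : ℝ) ≤ 1 := x.2.2
    have hn' : (0 : ℝ) ≤ n := by positivity
    nlinarith

/-- The box of the shift `s`. -/
def bx (n : ℕ) [NeZero n] (s : Fin n) : Set (Fin n → I) :=
  Set.univ.pi (fun k => {x : I | (((k + s : Fin n) : ℕ) : ℝ) < (n : ℝ) * x})

lemma cyc_ne_zero (n : ℕ) [NeZero n] {x : Fin n → I} (hx : cyc n x ≠ 0) : ∃ s, x ∈ bx n s := by
  by_contra hcon
  push Not at hcon
  apply hx
  apply Subtype.ext
  unfold cyc
  rw [mix_coe, Finset.sum_eq_zero]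
  · simp
  · intro s _
    have h := hcon s
    unfold bx at h
    simp only [Set.mem_pi, Set.mem_univ, true_implies, Set.mem_ofPred_eq, not_forall, not_lt] at h
    obtain ⟨k, hk⟩ := h
    rw [isCopula_prod.grounded _ ⟨k, ?_⟩]
    · simp
    · apply Subtype.ext
      unfold gs
      rw [cl_coe]
      rw [max_eq_left ((min_le_right _ _).trans (by linarith))]
      simp

lemma volume_coord (n : ℕ) [NeZero n] (j : Fin n) :
    (volume : Measure I) {x : I | ((j : ℕ) : ℝ) < (n : ℝ) * x} =
      ENNReal.ofReal (1 - (j : ℕ) / n) := by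
  have hn : (0 : ℝ) < n := by exact_mod_cast Nat.pos_of_ne_zero (NeZero.ne n)
  have hj : ((j : ℕ) : ℝ) ≤ n := by exact_mod_cast j.2.le
  have h : {x : I | ((j : ℕ) : ℝ) < (n : ℝ) * x} =
      Set.Ioi (⟨(j : ℕ) / n, by positivity, by rw [div_le_one hn]; exact hj⟩ : I) := by
    ext x
    simp only [Set.mem_ofPred_eq, Set.mem_Ioi]
    rw [← Subtype.coe_lt_coe]
    simp only
    rw [div_lt_iff₀ hn, mul_comm]
  rw [h, unitInterval.volume_Ioi]

lemma prod_cells (n : ℕ) [NeZero n] :
    ∏ j : Fin n, (1 - ((j : ℕ) : ℝ) / n) = (n.factorial : ℝ) / (n : ℝ) ^ n := by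
  have hn : (n : ℝ) ≠ 0 := by exact_mod_cast NeZero.ne n
  have h : ∀ m : ℕ, m ≤ n → ∏ j ∈ Finset.range m, (1 - (j : ℝ) / n) =
      (n.descFactorial m : ℝ) / (n : ℝ) ^ m := by
    intro m
    induction m with
    | zero => simp
    | succ m ih =>
      intro hm
      rw [Finset.prod_range_succ, ih (by omega), Nat.descFactorial_succ, Nat.cast_mul,
        Nat.cast_sub (by omega), pow_succ]
      field_simp
  rw [Fin.prod_univ_eq_prod_range (fun j => (1 - (j : ℝ) / n)) n, h n le_rfl,
    Nat.descFactorial_self]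

lemma volume_bx (n : ℕ) [NeZero n] (s : Fin n) :
    (volume : Measure (Fin n → I)) (bx n s) = ENNReal.ofReal ((n.factorial : ℝ) / (n : ℝ) ^ n) := by
  have hn : (0 : ℝ) < n := by exact_mod_cast Nat.pos_of_ne_zero (NeZero.ne n)
  unfold bx
  rw [volume_pi, Measure.pi_pi]
  have e : ∏ k : Fin n, (volume : Measure I) {x : I | (((k + s : Fin n) : ℕ) : ℝ) < (n : ℝ) * x} =
      ∏ k : Fin n, ENNReal.ofReal (1 - (k : ℕ) / n) := by
    simp_rw [volume_coord n]
    exact Equiv.prod_comp (Equiv.addRight s)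
      (fun j : Fin n => ENNReal.ofReal (1 - ((j : ℕ) : ℝ) / n))
  rw [e, ← ENNReal.ofReal_prod_of_nonneg, prod_cells]
  intro j _
  have hj : ((j : ℕ) : ℝ) ≤ n := by exact_mod_cast j.2.le
  rw [sub_nonneg, div_le_one hn]
  exact hj

/-- The lower bound for `s_n`. -/
lemma one_sub_s_le (n : ℕ) (hn : 1 ≤ n) :
    1 - (s n).toReal ≤ n * n.factorial / (n : ℝ) ^ n := by
  have : NeZero n := ⟨by omega⟩
  set B : ℝ := n * n.factorial / (n : ℝ) ^ n with hB
  have hB0 : 0 ≤ B := by positivity
  have hvol : (volume : Measure (Fin n → I)) {x | cyc n x ≠ 0} ≤ ENNReal.ofReal B := by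
    calc (volume : Measure (Fin n → I)) {x | cyc n x ≠ 0} ≤
          (volume : Measure (Fin n → I)) (⋃ s : Fin n, bx n s) := by
          refine measure_mono fun x hx => ?_
          exact Set.mem_iUnion.2 (cyc_ne_zero n hx)
      _ ≤ ∑ s : Fin n, (volume : Measure (Fin n → I)) (bx n s) := measure_iUnion_fintype_le _ _
      _ = ENNReal.ofReal B := by
          simp_rw [volume_bx]
          rw [Finset.sum_const, Finset.card_univ, Fintype.card_fin, nsmul_eq_mul, hB,
            mul_div_assoc, ENNReal.ofReal_mul (by positivity), ENNReal.ofReal_natCast]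
  have hagree : {x | cyc n x = 0} ⊆ agree (cyc n) := by
    intro x hx
    have hx' : cyc n x = 0 := hx
    have h1 := W_le hn (isCopula_cyc n) x
    have h2 : 0 ≤ W x := le_max_right _ _
    show (cyc n x : ℝ) = W x
    rw [hx'] at h1 ⊢
    simp only [Set.Icc.coe_zero] at h1 ⊢
    exact le_antisymm h2 h1
  have hs : (volume : Measure (Fin n → I)) (agree (cyc n)) ≤ s n := by
    rw [s_eq]
    exact le_iSup₂ (f := fun C (_ : C ∈ {C : (Fin n → I) → I | IsCopula C}) =>
      (volume : Measure (Fin n → I)) (agree C)) (cyc n) (isCopula_cyc n)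
  have hs1 : s n ≤ 1 := by
    rw [s_eq]
    exact iSup₂_le fun C _ => prob_le_one
  have htot : (1 : ℝ≥0∞) ≤ (volume : Measure (Fin n → I)) (agree (cyc n)) + ENNReal.ofReal B := by
    calc (1 : ℝ≥0∞) = (volume : Measure (Fin n → I)) Set.univ := measure_univ.symm
      _ ≤ (volume : Measure (Fin n → I)) (agree (cyc n) ∪ {x | cyc n x ≠ 0}) := by
          refine measure_mono fun x _ => ?_
          by_cases hx : cyc n x = 0
          · exact Or.inl (hagree hx)
          · exact Or.inr hx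
      _ ≤ _ := (measure_union_le _ _).trans (add_le_add le_rfl hvol)
  have htot2 : (1 : ℝ≥0∞) ≤ s n + ENNReal.ofReal B := htot.trans (add_le_add hs le_rfl)
  have hfin : s n ≠ ⊤ := ne_top_of_le_ne_top ENNReal.one_ne_top hs1
  have h := ENNReal.toReal_mono (ENNReal.add_ne_top.2 ⟨hfin, ENNReal.ofReal_ne_top⟩) htot2
  rw [ENNReal.toReal_one, ENNReal.toReal_add hfin ENNReal.ofReal_ne_top,
    ENNReal.toReal_ofReal hB0] at h
  linarith

end Pool.Agent.Y795.COP
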