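import Pool.Agent.Y795.COP.Low

/-!
# The volume of the corner simplex, and the upper bound for `s_n`
-/

set_option autoImplicit false

open MeasureTheory Set Filter Topology
open scoped unitInterval ENNReal
open Pool.Agent.Results.MP_2d7e0f_pr.SupAttained

namespace Pool.Agent.Y795.COP

lemma simplex_le : ∀ (n : ℕ) (t : ℝ), 0 ≤ t →
    (volume : Measure (Fin n → ℝ)) {x | (∀ i, 0 ≤ x i) ∧ ∑ i, x i ≤ t} ≤
      ENNReal.ofReal (t ^ n / n.factorial) := by
  intro n
  induction n with
  | zero =>
    intro t _
    simp only [pow_zero, Nat.factorial_zero, Nat.cast_one, div_one, ENNReal.ofReal_one]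
    refine (measure_mono (subset_univ _)).trans ?_
    rw [volume_pi, Measure.pi_univ]
    simp
  | succ n ih =>
    intro t ht
    set T : Set (ℝ × (Fin n → ℝ)) :=
      {p | 0 ≤ p.1 ∧ (∀ i, 0 ≤ p.2 i) ∧ p.1 + ∑ i, p.2 i ≤ t} with hT
    have hTm : MeasurableSet T := by
      apply IsClosed.measurableSet
      have h1 : IsClosed {p : ℝ × (Fin n → ℝ) | 0 ≤ p.1} := isClosed_le continuous_const continuous_fst
      have h2 : IsClosed {p : ℝ × (Fin n → ℝ) | ∀ i, 0 ≤ p.2 i} := by
        have : {p : ℝ × (Fin n → ℝ) | ∀ i, 0 ≤ p.2 i} = ⋂ i, {p | 0 ≤ p.2 i} := by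
          ext p; simp
        rw [this]
        exact isClosed_iInter fun i =>
          isClosed_le continuous_const ((continuous_apply i).comp continuous_snd)
      have h3 : IsClosed {p : ℝ × (Fin n → ℝ) | p.1 + ∑ i, p.2 i ≤ t} := by
        refine isClosed_le ?_ continuous_const
        exact continuous_fst.add
          (continuous_finsetSum _ fun i _ => (continuous_apply i).comp continuous_snd)
      exact h1.inter (h2.inter h3)
    have hS : {x : Fin (n + 1) → ℝ | (∀ i, 0 ≤ x i) ∧ ∑ i, x i ≤ t} =
        (MeasurableEquiv.piFinSuccAbove (fun _ => ℝ) 0) ⁻¹' T := by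
      ext x
      simp only [Set.mem_ofPred_eq, Set.mem_preimage, hT, MeasurableEquiv.piFinSuccAbove_apply,
        Fin.insertNthEquiv_symm_apply, Fin.removeNth_zero]
      rw [Fin.forall_fin_succ, Fin.sum_univ_succ]
      simp only [Fin.tail, and_assoc]
    rw [hS, (volume_preserving_piFinSuccAbove (fun _ => ℝ) 0).measure_preimage_equiv,
      Measure.volume_eq_prod, Measure.prod_apply hTm]
    have hsec : ∀ a : ℝ, (volume : Measure (Fin n → ℝ)) (Prod.mk a ⁻¹' T) ≤
        (Set.Icc 0 t).indicator (fun a => ENNReal.ofReal ((t - a) ^ n / n.factorial)) a := by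
      intro a
      by_cases ha : a ∈ Set.Icc 0 t
      · rw [Set.indicator_of_mem ha]
        refine (measure_mono ?_).trans (ih (t - a) (by linarith [ha.2]))
        intro y hy
        have hy' : 0 ≤ a ∧ (∀ i, 0 ≤ y i) ∧ a + ∑ i, y i ≤ t := hy
        exact ⟨hy'.2.1, by linarith [hy'.2.2]⟩
      · rw [Set.indicator_of_notMem ha]
        refine le_of_eq ?_
        convert measure_empty (μ := (volume : Measure (Fin n → ℝ)))
        ext y
        simp only [Set.mem_preimage, Set.mem_empty_iff_false, iff_false]
        intro hy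
        have hy' : 0 ≤ a ∧ (∀ i, 0 ≤ y i) ∧ a + ∑ i, y i ≤ t := hy
        apply ha
        have : 0 ≤ ∑ i, y i := Finset.sum_nonneg fun i _ => hy'.2.1 i
        exact ⟨hy'.1, by linarith [hy'.2.2]⟩
    refine (lintegral_mono hsec).trans ?_
    rw [lintegral_indicator measurableSet_Icc, ← ofReal_integral_eq_lintegral_ofReal]
    · apply le_of_eq
      congr 1
      rw [integral_Icc_eq_integral_Ioc, ← intervalIntegral.integral_of_le ht,
        intervalIntegral.integral_div,
        intervalIntegral.integral_comp_sub_left (fun x => x ^ n) t, sub_self, sub_zero,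
        integral_pow, Nat.factorial_succ]
      push_cast
      have h1 : ((n : ℝ) + 1) ≠ 0 := by positivity
      have h2 : (n.factorial : ℝ) ≠ 0 := by exact_mod_cast n.factorial_ne_zero
      field_simp
      simp
    · apply Continuous.integrableOn_Icc
      fun_prop
    · refine (ae_restrict_iff' measurableSet_Icc).2 (Filter.Eventually.of_forall fun a ha => ?_)
      have : 0 ≤ t - a := by linarith [ha.2]
      show 0 ≤ (t - a) ^ n / n.factorial
      positivity

variable {n : ℕ}

lemma volume_W_pos : (volume : Measure (Fin n → I)) {x | 0 < W x} ≤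
    ENNReal.ofReal (1 / n.factorial) := by
  have hsymm : MeasurePreserving (fun x : I => (1 - (x : ℝ))) (volume : Measure I)
      ((volume : Measure ℝ).restrict (Set.Icc 0 1)) := by
    have h1 : MeasurePreserving (Subtype.val : I → ℝ) volume
        ((volume : Measure ℝ).restrict (Set.Icc 0 1)) := measurePreserving_subtype_coe measurableSet_Icc
    have h2 : MeasurePreserving (unitInterval.symm) (volume : Measure I) volume :=
      unitInterval.measurePreserving_symm
    exact h1.comp h2
  have hpi := measurePreserving_pi (fun _ : Fin n => (volume : Measure I))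
    (fun _ : Fin n => (volume : Measure ℝ).restrict (Set.Icc 0 1)) (fun _ => hsymm)
  set S : Set (Fin n → ℝ) := {x | (∀ i, 0 ≤ x i) ∧ ∑ i, x i ≤ 1} with hS
  have hSm : MeasurableSet S := by
    apply IsClosed.measurableSet
    have h2 : IsClosed {p : (Fin n → ℝ) | ∀ i, 0 ≤ p i} := by
      have : {p : (Fin n → ℝ) | ∀ i, 0 ≤ p i} = ⋂ i, {p | 0 ≤ p i} := by
        ext p; simp
      rw [this]
      exact isClosed_iInter fun i => isClosed_le continuous_const (continuous_apply i)
    have h3 : IsClosed {p : (Fin n → ℝ) | ∑ i, p i ≤ 1} := by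
      refine isClosed_le ?_ continuous_const
      exact continuous_finsetSum _ fun i _ => continuous_apply i
    exact h2.inter h3
  calc (volume : Measure (Fin n → I)) {x | 0 < W x} ≤
      (volume : Measure (Fin n → I)) ((fun a i => (1 - (a i : ℝ))) ⁻¹' S) := by
        refine measure_mono fun x hx => ?_
        have hx' : 0 < W x := hx
        refine ⟨fun i => by simpa using (x i).2.2, ?_⟩
        unfold W at hx'
        have h3 : 0 < (∑ k, (x k : ℝ)) - n + 1 := by
          by_contra hcon
          push Not at hcon
          rw [max_eq_right hcon] at hx'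
          exact lt_irrefl _ hx'
        simp only [Finset.sum_sub_distrib, Finset.sum_const, Finset.card_univ, Fintype.card_fin,
          nsmul_eq_mul, mul_one]
        linarith
    _ = (Measure.pi (fun _ : Fin n => (volume : Measure ℝ).restrict (Set.Icc 0 1))) S :=
        hpi.measure_preimage hSm.nullMeasurableSet
    _ ≤ (volume : Measure (Fin n → ℝ)) S := by
        rw [← Measure.restrict_pi_pi]
        exact Measure.restrict_apply_le _ _
    _ ≤ ENNReal.ofReal (1 / n.factorial) := by
        have := simplex_le n 1 zero_le_one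
        rwa [one_pow] at this

/-- The upper bound for `s_n`. -/
lemma le_one_sub_s (hn : 1 ≤ n) :
    Real.exp (-(n : ℝ)) - 1 / n.factorial ≤ 1 - (s n).toReal := by
  have hbound : ∀ C : (Fin n → I) → I, IsCopula C → (volume : Measure (Fin n → I)) (agree C) ≤
      ENNReal.ofReal (1 - (Real.exp (-(n : ℝ)) - 1 / n.factorial)) := by
    intro C hC
    have h1 := exp_le_volume_pos hn hC
    set P : Set (Fin n → I) := {x | 0 < (C x : ℝ)} with hP
    have hPm : MeasurableSet P := (isOpen_lt continuous_const (continuous_copula hC)).measurableSet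
    have hsub : agree C ⊆ Pᶜ ∪ {x | 0 < W x} := by
      intro x hx
      have hx' : (C x : ℝ) = W x := hx
      by_cases hp : x ∈ P
      · right
        have : 0 < (C x : ℝ) := hp
        show 0 < W x
        rw [← hx']
        exact this
      · exact Or.inl hp
    have h2 : (volume : Measure (Fin n → I)) Pᶜ ≤ ENNReal.ofReal (1 - Real.exp (-(n : ℝ))) := by
      rw [prob_compl_eq_one_sub hPm, ENNReal.ofReal_sub _ (Real.exp_pos _).le, ENNReal.ofReal_one]
      refine tsub_le_tsub_left ?_ _
      exact (ENNReal.ofReal_le_iff_le_toReal (measure_ne_top _ _)).2 h1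
    calc (volume : Measure (Fin n → I)) (agree C) ≤ _ := measure_mono hsub
      _ ≤ (volume : Measure (Fin n → I)) Pᶜ + (volume : Measure (Fin n → I)) {x | 0 < W x} :=
          measure_union_le _ _
      _ ≤ ENNReal.ofReal (1 - Real.exp (-(n : ℝ))) + ENNReal.ofReal (1 / n.factorial) :=
          add_le_add h2 volume_W_pos
      _ = ENNReal.ofReal (1 - (Real.exp (-(n : ℝ)) - 1 / n.factorial)) := by
          rw [← ENNReal.ofReal_add]
          · congr 1; ring
          · have : Real.exp (-(n : ℝ)) ≤ 1 := Real.exp_le_one_iff.2 (by simp)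
            linarith
          · positivity
  have h3 : s n ≤ ENNReal.ofReal (1 - (Real.exp (-(n : ℝ)) - 1 / n.factorial)) := by
    rw [s_eq]
    exact iSup₂_le fun C hC => hbound C hC
  have h4 : 0 ≤ 1 - (Real.exp (-(n : ℝ)) - 1 / n.factorial) := by
    have h5 : Real.exp (-(n : ℝ)) ≤ 1 := Real.exp_le_one_iff.2 (by simp)
    have h6 : (0 : ℝ) ≤ 1 / n.factorial := by positivity
    linarith
  have h7 := ENNReal.toReal_mono ENNReal.ofReal_ne_top h3
  rw [ENNReal.toReal_ofReal h4] at h7
  linarith

end Pool.Agent.Y795.COP
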